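import Pool.Agent.H26.DGA3

set_option autoImplicit false

namespace Pool.Agent.Results.MP_ecafc5_an.Counterexample

theorem result : ∃ (X : Type) (_ : NormedAddCommGroup X) (_ : NormedSpace ℝ X)
    (_ : CompleteSpace X),
    (∀ x y : X, ‖x‖ = 1 → ‖y‖ = 1 → ∀ u : ℝ, 0 < u →
      (‖x + u • y‖ + ‖x - u • y‖) / 2 - 1 ≤ 5 * u ^ 2) ∧
    ∃ D : Set X, (∀ g ∈ D, ‖g‖ ≤ 1) ∧ (∀ g ∈ D, -g ∈ D) ∧
      Dense ((Submodule.span ℝ D : Submodule ℝ X) : Set X) ∧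
      ∀ t : ℝ, 0 < t → t ≤ 1 →
        ∃ (f : ℕ → X) (F : ℕ → X →L[ℝ] ℝ) (φ : ℕ → X) (a : ℕ → ℝ),
          (∀ m, f m ≠ 0) ∧ (∀ m, ‖F m‖ = 1 ∧ F m (f m) = ‖f m‖) ∧
          (∀ m, φ m ∈ D ∧ t * sSup (F m '' D) ≤ F m (φ m)) ∧
          (∀ m, ∀ b : ℝ, ‖f m - a m • φ m‖ ≤ ‖f m - b • φ m‖) ∧
          (∀ m, f (m + 1) = f m - a m • φ m) ∧
          ¬ Filter.Tendsto (fun m => ‖f m‖) Filter.atTop (nhds 0) := by
  obtain ⟨X, _, _, _, D, f, F, φ, a, h0, h1, h2, h3, h4, h5, h6, h7, h8⟩ := Pool.Agent.H26.DGA.cex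
  refine ⟨X, inferInstance, inferInstance, inferInstance, h0, D, fun g hg => (h1 g hg).le, h2, h3,
    fun t ht ht1 => ⟨f, F, φ, a, fun m h => ?_, h4, fun m => ⟨(h5 m).1, ?_⟩, h6, h7, fun h => ?_⟩⟩
  · have := h8 m
    rw [h, norm_zero] at this
    linarith
  · have e : sSup (F m '' D) = F m (φ m) :=
      IsGreatest.csSup_eq ⟨⟨_, (h5 m).1, rfl⟩, by rintro _ ⟨g, hg, rfl⟩; exact (h5 m).2 g hg⟩
    have := (h5 m).2 _ (h2 _ (h5 m).1)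
    rw [map_neg] at this
    rw [e]
    nlinarith
  · exact absurd (ge_of_tendsto' h h8) (by norm_num)

end Pool.Agent.Results.MP_ecafc5_an.Counterexample
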